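import Mathlib
import Pool.Agent.Helper85.CD.Final

/-!
MP_175e83_al, Q1: the real GKK matrices that are not limits of strict GKK matrices. They form a set of
codimension exactly 3. The real GKK matrices whose vanishing almost principal minors have rank at least 4
have codimension at least 4, and among the other ones the limits are determined by the parts of order 4,
by explicit linear programs in three unknowns.
-/

namespace Pool.Agent.Results.MP_175e83_al.CodimensionThree

open Pool.Agent.Helper5.GKK Pool.Agent.Helper85.CD
open scoped ENNReal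

/-- The real matrices of order `n` that are limits of strict GKK matrices in `ℂ^(n x n)`. -/
def RealLimits (n : ℕ) : Set (Matrix (Fin n) (Fin n) ℝ) :=
  {A | A.map (fun x : ℝ => (x : ℂ)) ∈ closure {B : Matrix (Fin n) (Fin n) ℂ | IsStrictGKK B}}

/-- Real GKK matrices. -/
def IsRealGKK {n : ℕ} (A : Matrix (Fin n) (Fin n) ℝ) : Prop :=
  IsGKK (A.map (fun x : ℝ => (x : ℂ)))

/-- All parts of order 4 of `A` (submatrices of order 4 of Schur complements of `A`) are limits of
strict GKK matrices. -/
def PartsAreLimits {n : ℕ} (A : Matrix (Fin n) (Fin n) ℝ) : Prop :=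
  ∀ (K : Finset (Fin n)) (e : Fin 4 → Fin n), Function.Injective e → (∀ x, e x ∉ K) →
    schurBlock A K e ∈ RealLimits 4

/-- For every part `M` of order 4 of `A` whose last column (row) is zero off the diagonal the linear
program `ColumnCanMove` of `M` (of the transpose of `M`) has a solution. -/
def ProgramsSolvable {n : ℕ} (A : Matrix (Fin n) (Fin n) ℝ) : Prop :=
  ∀ (K : Finset (Fin n)) (e : Fin 4 → Fin n), Function.Injective e → (∀ x, e x ∉ K) →
    ((∀ i, i ≠ 3 → schurBlock A K e i 3 = 0) → ColumnCanMove (schurBlock A K e)) ∧
    ((∀ i, i ≠ 3 → schurBlock A K e 3 i = 0) → ColumnCanMove (schurBlock A K e).transpose)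

/-- Let `n ≥ 4`. The real GKK matrices of order `n` that are not limits of strict GKK matrices form a set
of Hausdorff dimension exactly `n² - 3`. Outside of a set of dimension at most `n² - 4`, namely for all
real GKK matrices `A` the vanishing almost principal minors of which have rank at most `3`, the following
are equivalent: `A` is a limit of strict GKK matrices; all parts of order 4 of `A` are such limits; the
linear programs of the parts of order 4 of `A` have solutions. -/
theorem result (n : ℕ) (hn : 4 ≤ n) :
    dimH {B : Fin n → Fin n → ℝ | IsRealGKK (Matrix.of B) ∧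
      Matrix.of B ∉ RealLimits n} = ((n ^ 2 - 3 : ℕ) : ℝ≥0∞) ∧
    dimH {B : Fin n → Fin n → ℝ | IsRealGKK (Matrix.of B) ∧
      4 ≤ vanishingRank (Matrix.of B)} ≤ ((n ^ 2 - 4 : ℕ) : ℝ≥0∞) ∧
    ∀ A : Matrix (Fin n) (Fin n) ℝ, IsRealGKK A → vanishingRank A ≤ 3 →
      [A ∈ RealLimits n, PartsAreLimits A, ProgramsSolvable A].TFAE :=
  ⟨final_nonlimits hn, final_dim n 4, fun _ hA hd => final_three hA hd⟩

end Pool.Agent.Results.MP_175e83_al.CodimensionThree
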