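import Mathlib
import Pool.Agent.Helper21.GK.Final

/-!
The limits of strict GKK matrices have excluded parts exactly in the orders `n ≥ 4`: for `n ≤ 3` all GKK
matrices are limits, and for `n ≥ 4` there is a GKK matrix of order `n` outside the closure of the strict
GKK matrices, all smaller parts of which (submatrices of Schur complements) are limits, although it has
the same signs of all principal and almost principal minors as a matrix that is a limit.
-/

namespace Pool.Agent.Results.MP_175e83_al.ExcludedMinors

open Pool.Agent.Helper5.GKK Pool.Agent.Helper21.GK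

/-- For every `n` the following are equivalent: `n ≥ 4`; some GKK matrix of order `n` is not a limit of
strict GKK matrices; there are integral GKK matrices `A`, `A'` of order `n` all parts of which of order
`< n` are limits of strict GKK matrices, which have the same signs of all principal and almost principal
minors, such that `A'` is a limit of strict GKK matrices and `A` is not. -/
theorem result (n : ℕ) :
    [4 ≤ n,
      ∃ A : Matrix (Fin n) (Fin n) ℂ, IsGKK A ∧
        A ∉ closure {B : Matrix (Fin n) (Fin n) ℂ | IsStrictGKK B},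
      ∃ A A' : Matrix (Fin n) (Fin n) ℤ,
        IsGKK (A.map ((↑) : ℤ → ℂ)) ∧ IsGKK (A'.map ((↑) : ℤ → ℂ)) ∧
        (∀ (K : Finset (Fin n)) (m : ℕ) (e : Fin m → Fin n), m < n → Function.Injective e →
          (∀ i, e i ∉ K) →
          schurPart (A.map ((↑) : ℤ → ℂ)) K e
            ∈ closure {B : Matrix (Fin m) (Fin m) ℂ | IsStrictGKK B} ∧
          schurPart (A'.map ((↑) : ℤ → ℂ)) K e
            ∈ closure {B : Matrix (Fin m) (Fin m) ℂ | IsStrictGKK B}) ∧
        (∀ (k : ℕ) (α β : Fin k → Fin n), (α = β ∧ StrictMono α) ∨ AlmostPrincipal α β →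
          SignType.sign ((A.submatrix α β).det) = SignType.sign ((A'.submatrix α β).det)) ∧
        A.map ((↑) : ℤ → ℂ) ∉ closure {B : Matrix (Fin n) (Fin n) ℂ | IsStrictGKK B} ∧
        A'.map ((↑) : ℤ → ℂ) ∈ closure {B : Matrix (Fin n) (Fin n) ℂ | IsStrictGKK B}].TFAE := by
  obtain ⟨h1, h2, h3⟩ := excluded
  tfae_have 1 → 3 := by
    intro hn
    obtain ⟨A, A', hA, hA', hp, hs, hn1, hn2⟩ := h3 n hn
    refine ⟨A, A', hA, hA', fun K m e hm he hK => ⟨hp K m e hm he hK, ?_⟩, hs, hn1, hn2⟩
    exact (h1 n _ hA' K m e he hK).2 hn2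
  tfae_have 3 → 2 := by
    rintro ⟨A, -, hA, -, -, -, hn1, -⟩
    exact ⟨_, hA, hn1⟩
  tfae_have 2 → 1 := by
    rintro ⟨A, hA, hn1⟩
    by_contra hn
    exact hn1 (h2 n (by omega) A hA)
  tfae_finish

end Pool.Agent.Results.MP_175e83_al.ExcludedMinors
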