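import Mathlib
import Pool.Agent.Helper69.GKK.Crit

/-!
Which GKK matrices without a rank one cut, with symmetric zeros, or in nonreal position are limits of
strict GKK matrices: those whose irreducible diagonal blocks are diagonally similar to Hermitian matrices,
and, outside of the nonreal position, those with symmetric zeros and those diagonally similar to real
limits of real strict GKK matrices.
-/

namespace Pool.Agent.Results.MP_175e83_al.RealOrHermitian

open Finset
open Pool.Agent.Helper5.GKK Pool.Agent.Helper69.GKK

/-- A GKK matrix `A` that has no rank one cut, or has symmetric zeros, or is in nonreal position, is a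
limit of strict GKK matrices if and only if every irreducible diagonal block of `A` is diagonally similar
to a Hermitian matrix, or `A` is not in nonreal position and either has symmetric zeros or is diagonally
similar to a real matrix that is a limit of real strict GKK matrices. -/
theorem result (n : ℕ) (A : Matrix (Fin n) (Fin n) ℂ) (hA : IsGKK A)
    (h : ¬ CutOn univ A ∨ SymmetricZeros A ∨ NonrealPosition A) :
    A ∈ closure {B : Matrix (Fin n) (Fin n) ℂ | IsStrictGKK B} ↔
      HermitianBlocks A ∨ (¬ NonrealPosition A ∧ (SymmetricZeros A ∨ RealLimit A)) := by
  by_cases hN : NonrealPosition A
  · constructor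
    · intro h1
      exact Or.inl (hermitianBlocks_of_nonreal hA hN h1)
    · rintro (h1 | ⟨h1, -⟩)
      · exact mem_of_hermitianBlocks hA h1
      · exact absurd hN h1
  · have h2 : SymmetricZeros A ∨ ¬ CutOn univ A ∨ NonrealPosition A := by
      rcases h with h | h | h
      · exact Or.inr (Or.inl h)
      · exact Or.inl h
      · exact Or.inr (Or.inr h)
    rw [criterion hA h2]
    tauto

end Pool.Agent.Results.MP_175e83_al.RealOrHermitian
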