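import Mathlib
import Pool.Agent.Helper63.UR.Bridge

/-!
Universality: deciding whether a GKK matrix with rational entries is a limit of strict GKK matrices
is at least as hard as solving systems of polynomial equations over the reals. To every finite
system of equations of the forms `x + y = z` and `w v = x y` an explicit GKK matrix is attached
which is a limit of strict GKK matrices if and only if the system has a real solution in the box
`[1/2, 2] ^ n`.
-/

namespace Pool.Agent.Results.MP_175e83_al.Universality

open Pool.Agent.Helper63.URS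

theorem result (n m : ℕ) (S : Fin m → Eqn n) (N : ℕ)
    (c : Fin N ≃ (Var n m ⊕ CIx n m × Bool) ⊕ (Option (CIx n m) ⊕ CIx n m × Bool))
    (A : Matrix (Fin N) (Fin N) ℂ) (hA : ∀ x y, A x y = ((etrM S (c x) (c y) : ℚ) : ℂ)) :
    N = 11 * n + 94 * m + 2 ∧ IsGKK A ∧
      (A ∈ closure {B : Matrix (Fin N) (Fin N) ℂ | IsStrictGKK B} ↔
        ∃ z : Fin n → ℝ, (∀ i, 1 / 2 ≤ z i ∧ z i ≤ 2) ∧ ∀ q, (S q).Solves z) := by
  refine ⟨?_, etr_main S c A hA⟩
  have h := Fintype.card_congr c
  simp only [Fintype.card_fin, Fintype.card_sum, Fintype.card_prod, Fintype.card_option,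
    Fintype.card_bool] at h
  omega

end Pool.Agent.Results.MP_175e83_al.Universality
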